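import Pool.Agent.helper49.M4.Spec
import Pool.Agent.helper26.M4.CovB

/-!
# Project M4, block II, row R1 (helper26): the numeric part of COVER for th <= 3/5
-/

set_option autoImplicit false

namespace Pool.Agent.M4F

open Real Pool.Agent.M4.Fn

/-- lower bound of `c + .917 s^2/c^2` -/
theorem R1_W {th : ℝ} (h0 : 0 < th) (h1 : th ≤ 3 / 5) :
    1 + 0.417 * th ^ 2 + 0.64 * th ^ 4 ≤ cos th + 0.917 * (sin th ^ 2 / cos th ^ 2) := by
  have hc0 : 0 < cos th := by
    have := cos_lo h0.le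
    nlinarith [pow_le_pow_left₀ h0.le h1 2, pow_le_pow_left₀ h0.le h1 6, pow_pos h0 4]
  have hc1 : cos th ≤ 1 := cos_le_one th
  have hy0 : 0 < th ^ 2 := by positivity
  have hy1 : th ^ 2 ≤ 9 / 25 := by nlinarith
  have hd : th ^ 2 / 2 - th ^ 4 / 24 ≤ 1 - cos th := by
    have := cos_le4 th h0.le
    linarith
  have hs : sin th ^ 2 = 1 - cos th ^ 2 := by
    have := sin_sq_add_cos_sq th
    linarith
  set d := 1 - cos th with hdd
  have hcd : cos th = 1 - d := by rw [hdd]; ring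
  have hd0 : 0 ≤ d := by rw [hdd]; linarith
  have hdlt : d < 1 := by linarith
  have key : 2 * d + 3 * d ^ 2 + 4 * d ^ 3 ≤ sin th ^ 2 / cos th ^ 2 := by
    rw [hs, hcd, le_div_iff₀ (by nlinarith)]
    have : 0 ≤ d ^ 4 * (5 - 4 * d) := by
      apply mul_nonneg (by positivity); linarith
    nlinarith [this]
  have h4 : th ^ 4 = (th ^ 2) ^ 2 := by ring
  rw [h4] at hd ⊢
  set y := th ^ 2 with hy
  have hp0 : 0 ≤ y / 2 - y ^ 2 / 24 := by nlinarith
  have e2 : (y / 2 - y ^ 2 / 24) ^ 2 ≤ d ^ 2 := pow_le_pow_left₀ hp0 hd 2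
  have e3 : (y / 2 - y ^ 2 / 24) ^ 3 ≤ d ^ 3 := pow_le_pow_left₀ hp0 hd 3
  have hfin : 0.417 * y + 0.64 * y ^ 2 ≤ 0.834 * (y / 2 - y ^ 2 / 24) +
      2.751 * (y / 2 - y ^ 2 / 24) ^ 2 + 3.668 * (y / 2 - y ^ 2 / 24) ^ 3 := by
    have hz : 0 ≤ y ^ 2 * (0.013 + 0.34387 * y - 0.11 * y ^ 2) := by
      apply mul_nonneg (by positivity); nlinarith
    nlinarith [pow_pos hy0 2, pow_pos hy0 3, pow_pos hy0 4, pow_pos hy0 5, pow_pos hy0 6,
      mul_nonneg (pow_pos hy0 4).le (sub_nonneg.2 hy1)]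
  linarith

/-- (a): `arsinh (tan th) <= th + .185 th^3` -/
theorem R1_ars {th : ℝ} (h0 : 0 < th) (h1 : th ≤ 3 / 5) :
    arsinh (sin th / cos th) ≤ th + 0.185 * th ^ 3 := by
  have hc0 : 0 < cos th := by
    have := cos_lo h0.le
    nlinarith [pow_le_pow_left₀ h0.le h1 2, pow_le_pow_left₀ h0.le h1 6, pow_pos h0 4]
  have hX0 : 0 ≤ th + 0.185 * th ^ 3 := by positivity
  have hs := sin_hi h0.le
  have hc := cos_lo h0.le
  have hsh := sinh_lo hX0
  have hy0 : 0 < th ^ 2 := by positivity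
  have hy1 : th ^ 2 ≤ 9 / 25 := by nlinarith
  have h3 : (th + 0.185 * th ^ 3) ^ 3 = th ^ 3 * (1 + 0.185 * th ^ 2) ^ 3 := by ring
  have h5 : (th + 0.185 * th ^ 3) ^ 5 = th ^ 5 * (1 + 0.185 * th ^ 2) ^ 5 := by ring
  have b3 : 1 + 0.555 * th ^ 2 + 0.102675 * th ^ 4 ≤ (1 + 0.185 * th ^ 2) ^ 3 := by
    have e : (1 + 0.185 * th ^ 2) ^ 3 =
      1 + 0.555 * th ^ 2 + 0.102675 * th ^ 4 + 0.185 ^ 3 * th ^ 6 := by ring
    rw [e]
    have : 0 < th ^ 6 := by positivity
    nlinarith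
  have b5 : 1 + 0.925 * th ^ 2 ≤ (1 + 0.185 * th ^ 2) ^ 5 := by
    have := one_add_mul_le_pow (a := 0.185 * th ^ 2) (by nlinarith) 5
    have e : (1 : ℝ) + (5 : ℕ) * (0.185 * th ^ 2) = 1 + 0.925 * th ^ 2 := by push_cast; ring
    rw [e] at this
    exact this
  have hlow : th * (1 + 0.3516667 * th ^ 2 + 0.1008333 * th ^ 4 + 0.02482 * th ^ 6) - 1e-6 * th ^ 3 ≤
      sinh (th + 0.185 * th ^ 3) := by
    refine le_trans ?_ hsh
    rw [h3, h5]
    have q3 : th ^ 3 * (1 + 0.555 * th ^ 2 + 0.102675 * th ^ 4) ≤ th ^ 3 * (1 + 0.185 * th ^ 2) ^ 3 :=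
      mul_le_mul_of_nonneg_left b3 (by positivity)
    have q5 : th ^ 5 * (1 + 0.925 * th ^ 2) ≤ th ^ 5 * (1 + 0.185 * th ^ 2) ^ 5 :=
      mul_le_mul_of_nonneg_left b5 (by positivity)
    have p7 : 0 < th ^ 7 := by positivity
    have p5 : 0 < th ^ 5 := by positivity
    have p3 : 0 < th ^ 3 := by positivity
    nlinarith
  have hR0 : 0 < th * (1 + 0.3516667 * th ^ 2 + 0.1008333 * th ^ 4 + 0.02482 * th ^ 6) - 1e-6 * th ^ 3 := by
    have p7 : 0 < th ^ 7 := by positivity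
    have p5 : 0 < th ^ 5 := by positivity
    have p3 : 0 < th ^ 3 := by positivity
    nlinarith
  rw [← arsinh_sinh (th + 0.185 * th ^ 3)]
  apply arsinh_le_arsinh.2
  rw [div_le_iff₀ hc0]
  have hcp : 0 < 1 - th ^ 2 / 2 + th ^ 4 / 24 - th ^ 6 / 720 := by
    have : th ^ 6 ≤ (3 / 5) ^ 6 := pow_le_pow_left₀ h0.le h1 6
    have p4 : 0 < th ^ 4 := by positivity
    nlinarith
  have hmul : (th * (1 + 0.3516667 * th ^ 2 + 0.1008333 * th ^ 4 + 0.02482 * th ^ 6) - 1e-6 * th ^ 3) *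
      (1 - th ^ 2 / 2 + th ^ 4 / 24 - th ^ 6 / 720) ≤ sinh (th + 0.185 * th ^ 3) * cos th :=
    mul_le_mul hlow hc hcp.le (hR0.le.trans hlow)
  refine hs.trans (le_trans ?_ hmul)
  have hy4 : 0 ≤ th ^ 3 * ((9 / 25 - th ^ 2) * (1 + th ^ 2 + th ^ 4)) := by
    apply mul_nonneg (by positivity)
    apply mul_nonneg (by linarith) (by positivity)
  have g : 0 ≤ th ^ 3 * (0.0183 - 0.0417 * th ^ 2 - 0.01234 * th ^ 4 - 0.0087 * th ^ 6) := by
    apply mul_nonneg (by positivity)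
    have a2 : th ^ 4 ≤ (9 / 25) ^ 2 := by
      have := pow_le_pow_left₀ hy0.le hy1 2
      calc th ^ 4 = (th ^ 2) ^ 2 := by ring
        _ ≤ _ := this
    have a3 : th ^ 6 ≤ (9 / 25) ^ 3 := by
      have := pow_le_pow_left₀ hy0.le hy1 3
      calc th ^ 6 = (th ^ 2) ^ 3 := by ring
        _ ≤ _ := this
    nlinarith
  have p3 : 0 < th ^ 3 := by positivity
  have p5 : 0 < th ^ 5 := by positivity
  have p7 : 0 < th ^ 7 := by positivity
  have p9 : 0 < th ^ 9 := by positivity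
  have p11 : 0 < th ^ 11 := by positivity
  have p13 : th ^ 13 ≤ th ^ 11 * (9 / 25) := by
    have : th ^ 13 = th ^ 11 * th ^ 2 := by ring
    rw [this]
    exact mul_le_mul_of_nonneg_left hy1 p11.le
  nlinarith [g, p3, p5, p7, p9, p11, p13]

/-- (c): `sqrt (2/c) s <= 1.41422 th + .1415 th^3` -/
theorem R1_sq {th : ℝ} (h0 : 0 < th) (h1 : th ≤ 3 / 5) :
    sqrt (2 / cos th) * sin th ≤ 1.41422 * th + 0.1415 * th ^ 3 := by
  have hs0 : 0 < sin th := sin_pos_of_pos_of_lt_pi h0 (by linarith [pi_gt_three])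
  have hs := sin_hi h0.le
  have hc := cos_lo h0.le
  have hy0 : 0 < th ^ 2 := by positivity
  have hy1 : th ^ 2 ≤ 9 / 25 := by nlinarith
  have a2 : th ^ 4 ≤ (9 / 25) ^ 2 := by
    have := pow_le_pow_left₀ hy0.le hy1 2
    calc th ^ 4 = (th ^ 2) ^ 2 := by ring
      _ ≤ _ := this
  have a3 : th ^ 6 ≤ (9 / 25) ^ 3 := by
    have := pow_le_pow_left₀ hy0.le hy1 3
    calc th ^ 6 = (th ^ 2) ^ 3 := by ring
      _ ≤ _ := this
  have hcp : 0 < 1 - th ^ 2 / 2 + th ^ 4 / 24 - th ^ 6 / 720 := by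
    have p4 : 0 < th ^ 4 := by positivity
    nlinarith
  have hc0 : 0 < cos th := hcp.trans_le hc
  have hR0 : 0 ≤ 1.41422 * th + 0.1415 * th ^ 3 := by positivity
  have hs1 : sin th ^ 2 ≤ (th - th ^ 3 / 6 + th ^ 5 / 120) ^ 2 := pow_le_pow_left₀ hs0.le hs 2
  have hgoal : 2 * sin th ^ 2 ≤ (1.41422 * th + 0.1415 * th ^ 3) ^ 2 * cos th := by
    have m1 : (1.41422 * th + 0.1415 * th ^ 3) ^ 2 * (1 - th ^ 2 / 2 + th ^ 4 / 24 - th ^ 6 / 720) ≤
        (1.41422 * th + 0.1415 * th ^ 3) ^ 2 * cos th :=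
      mul_le_mul_of_nonneg_left hc (sq_nonneg _)
    refine le_trans ?_ m1
    refine (mul_le_mul_of_nonneg_left hs1 (by norm_num)).trans ?_
    have g : 0 ≤ th ^ 4 * (0.0668818 - 0.185645 * th ^ 2) := by
      apply mul_nonneg (by positivity)
      nlinarith
    have p2 : 0 < th ^ 2 := by positivity
    have p4 : 0 < th ^ 4 := by positivity
    have p6 : 0 < th ^ 6 := by positivity
    have p8 : 0 < th ^ 8 := by positivity
    have p10 : 0 < th ^ 10 := by positivity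
    have p12 : th ^ 12 ≤ th ^ 10 * (9 / 25) := by
      have : th ^ 12 = th ^ 10 * th ^ 2 := by ring
      rw [this]
      exact mul_le_mul_of_nonneg_left hy1 p10.le
    nlinarith [g, p2, p4, p6, p8, p10, p12]
  have e : (sqrt (2 / cos th) * sin th) ^ 2 = 2 / cos th * sin th ^ 2 := by
    rw [mul_pow, sq_sqrt (by positivity)]
  have hle : (sqrt (2 / cos th) * sin th) ^ 2 ≤ (1.41422 * th + 0.1415 * th ^ 3) ^ 2 := by
    rw [e, div_mul_eq_mul_div, div_le_iff₀ hc0]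
    exact hgoal
  exact (pow_le_pow_iff_left₀ (by positivity) hR0 two_ne_zero).1 hle

/-- (d): the quadratic part -/
theorem R1_quad {lam th : ℝ} (hl : 0 < lam) (h0 : 0 < th) (h1 : th ≤ 3 / 5)
    (hsl : sinh lam < sin th) (a : ℝ) (ha : cos th ≤ a) :
    lam / th * arctan (sinh lam / cos th) +
      sqrt (2 / a) * ((sinh lam ^ 2 + lam ^ 2) / (2 * sin th)) ≤ 3.05 * th * (lam / th) ^ 2 := by
  have hs0 : 0 < sin th := sin_pos_of_pos_of_lt_pi h0 (by linarith [pi_gt_three])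
  have hc := cos_lo h0.le
  have hy0 : 0 < th ^ 2 := by positivity
  have hy1 : th ^ 2 ≤ 9 / 25 := by nlinarith
  have a3 : th ^ 6 ≤ (9 / 25) ^ 3 := by
    have := pow_le_pow_left₀ hy0.le hy1 3
    calc th ^ 6 = (th ^ 2) ^ 3 := by ring
      _ ≤ _ := this
  have hcl : 0.8253 ≤ cos th := by
    have : 0 ≤ (9 / 25 - th ^ 2) * (1 / 2 - (9 / 25 + th ^ 2) / 24) := by
      apply mul_nonneg (by linarith); linarith
    nlinarith
  have hc0 : 0 < cos th := by linarith
  have hshl : lam ≤ sinh lam := self_le_sinh_iff.2 hl.le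
  have hsin : sin th ≤ 0.5647 := by
    have h5 : sin th ≤ sin (3 / 5) := by
      apply sin_le_sin_of_le_of_le_pi_div_two _ _ h1
      · linarith [pi_gt_three]
      · linarith [pi_gt_three]
    have := sin_hi (x := 3 / 5) (by norm_num)
    refine h5.trans (this.trans ?_)
    norm_num
  have hlam : lam ≤ 0.5647 := by linarith
  have hK : sinh lam ≤ 1.061 * lam := by
    refine (sinh_hi hl.le (by linarith)).trans ?_
    have l2 : lam ^ 2 ≤ 0.5647 ^ 2 := pow_le_pow_left₀ hl.le hlam 2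
    have l4 : lam ^ 4 ≤ 0.5647 ^ 4 := pow_le_pow_left₀ hl.le hlam 4
    have : 1 + lam ^ 2 / 6 + lam ^ 4 / 80 ≤ 1.061 := by norm_num at l2 l4 ⊢; linarith
    nlinarith
  have hsh0 : 0 < sinh lam := by linarith
  -- first term
  have t1 : lam / th * arctan (sinh lam / cos th) ≤ 1.2857 * th * (lam / th) ^ 2 := by
    have harc : arctan (sinh lam / cos th) ≤ sinh lam / cos th := by
      have hx : 0 ≤ sinh lam / cos th := by positivity
      have := le_tan (arctan_nonneg.2 hx) (arctan_lt_pi_div_two _)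
      rwa [tan_arctan] at this
    have h2 : sinh lam / cos th ≤ 1.2857 * lam := by
      rw [div_le_iff₀ hc0]
      nlinarith
    have h3 : lam / th * arctan (sinh lam / cos th) ≤ lam / th * (1.2857 * lam) :=
      mul_le_mul_of_nonneg_left (harc.trans h2) (by positivity)
    refine h3.trans (le_of_eq ?_)
    field_simp
  have t2 : sqrt (2 / a) ≤ 1.5568 := by
    rw [sqrt_le_left (by norm_num)]
    rw [div_le_iff₀ (by linarith)]
    nlinarith
  have hsl2 : 0.94 * th ≤ sin th := by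
    have := sin_ge3 th h0.le
    nlinarith [mul_nonneg h0.le (sub_nonneg.2 hy1)]
  have t3 : (sinh lam ^ 2 + lam ^ 2) / (2 * sin th) ≤ 1.13071 * th * (lam / th) ^ 2 := by
    rw [div_le_iff₀ (by positivity)]
    have h4 : sinh lam ^ 2 ≤ (1.061 * lam) ^ 2 := pow_le_pow_left₀ hsh0.le hK 2
    have h5 : 1.13071 * th * (lam / th) ^ 2 * (2 * (0.94 * th)) ≤
        1.13071 * th * (lam / th) ^ 2 * (2 * sin th) := by
      apply mul_le_mul_of_nonneg_left (by linarith) (by positivity)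
    refine le_trans ?_ h5
    have h6 : 1.13071 * th * (lam / th) ^ 2 * (2 * (0.94 * th)) = 1.13071 * 1.88 * lam ^ 2 := by
      field_simp
      ring
    rw [h6]
    nlinarith [sq_nonneg lam]
  have t4 : sqrt (2 / a) * ((sinh lam ^ 2 + lam ^ 2) / (2 * sin th)) ≤
      1.5568 * (1.13071 * th * (lam / th) ^ 2) :=
    mul_le_mul t2 t3 (by positivity) (by norm_num)
  have hpos : 0 ≤ th * (lam / th) ^ 2 := by positivity
  nlinarith

/-- upper bound of `Gf` -/
theorem R1_up {lam th : ℝ} (hl : 0 < lam) (h0 : 0 < th) (h1 : th ≤ 3 / 5)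
    (hsl : sinh lam < sin th) (hbig : 0.265 * th ^ 2 ≤ lam) (a : ℝ) (ha : cos th ≤ a) :
    arsinh (sin th / a) + lam / th * arctan (sinh lam / cos th) +
      sqrt (2 / a) * (sin th + (sinh lam ^ 2 + lam ^ 2) / (2 * sin th)) - lam / th * (2 * π - th) ≤
      th * (0.7493 + 0.265 * th + 0.541 * th ^ 2) := by
  have hs0 : 0 < sin th := sin_pos_of_pos_of_lt_pi h0 (by linarith [pi_gt_three])
  have hcpos : 0 < cos th := by
    apply cos_pos_of_mem_Ioo
    constructor <;> linarith [pi_gt_three]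
  have ha0 : 0 < a := hcpos.trans_le ha
  have e1 : arsinh (sin th / a) ≤ th + 0.185 * th ^ 3 := by
    refine le_trans (arsinh_le_arsinh.2 ?_) (R1_ars h0 h1)
    exact div_le_div_of_nonneg_left hs0.le hcpos ha
  have e2 := R1_quad hl h0 h1 hsl a ha
  have e3 : sqrt (2 / a) * sin th ≤ 1.41422 * th + 0.1415 * th ^ 3 := by
    refine le_trans ?_ (R1_sq h0 h1)
    apply mul_le_mul_of_nonneg_right _ hs0.le
    apply sqrt_le_sqrt
    exact div_le_div_of_nonneg_left (by norm_num) hcpos ha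
  have hmu1 : lam / th ≤ 1 := by
    rw [div_le_one h0]
    have := self_le_sinh_iff.2 hl.le
    have := sin_le h0.le
    linarith
  have hmu0 : 0.265 * th ≤ lam / th := by
    rw [le_div_iff₀ h0]
    nlinarith
  set mu := lam / th with hmu
  have hpi := pi_gt_d4
  have e4 : 3.05 * th * mu ^ 2 - mu * (2 * π - th) ≤
      3.05 * th * (0.265 * th) ^ 2 - 0.265 * th * (2 * π - th) := by
    have : 0 ≤ (mu - 0.265 * th) * ((2 * π - th) - 3.05 * th * (mu + 0.265 * th)) := by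
      apply mul_nonneg (by linarith)
      nlinarith
    nlinarith
  have hp3 : 0 < th ^ 3 := by positivity
  have : sqrt (2 / a) * (sin th + (sinh lam ^ 2 + lam ^ 2) / (2 * sin th)) =
      sqrt (2 / a) * sin th + sqrt (2 / a) * ((sinh lam ^ 2 + lam ^ 2) / (2 * sin th)) := by ring
  rw [this]
  have hpt : 0 < th * (π - 3.1415) := mul_pos h0 (by linarith)
  nlinarith

/-- the comparison -/
theorem R1_cmp {lam th g : ℝ} (hl : 0 < lam) (h0 : 0 < th) (h1 : th ≤ 3 / 5)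
    (hg : cosh g < 1 + 0.417 * th ^ 2 + 0.64 * th ^ 4) :
    2 * rh lam th * (cosh g - cos th) < 1.834 * st lam th := by
  have hc0 : 0 < cos th := by
    apply cos_pos_of_mem_Ioo
    constructor <;> linarith [pi_gt_three]
  have hs0 : 0 < sin th := sin_pos_of_pos_of_lt_pi h0 (by linarith [pi_gt_three])
  have hW := R1_W h0 h1
  have hS : 0 < sinh lam ^ 2 := by
    have := sinh_pos_iff.2 hl
    positivity
  have hcs : sin th ^ 2 ≤ cos th ^ 2 := by
    have h := sin_le h0.le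
    have h2 : cos th ^ 2 = 1 - sin th ^ 2 := by
      have := sin_sq_add_cos_sq th
      linarith
    nlinarith
  have hr : 0 < rh lam th := by
    unfold rh
    positivity
  have hq : rh lam th * (sin th ^ 2 / cos th ^ 2) ≤ st lam th := by
    unfold rh st
    rw [← mul_div_assoc, div_le_iff₀ (by positivity)]
    nlinarith
  have h2 : cosh g - cos th < 0.917 * (sin th ^ 2 / cos th ^ 2) := by linarith
  have h3 : rh lam th * (cosh g - cos th) < rh lam th * (0.917 * (sin th ^ 2 / cos th ^ 2)) :=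
    mul_lt_mul_of_pos_left h2 hr
  nlinarith

theorem R1_c1 {th g : ℝ} (h0 : 0 < th) (h1 : th ≤ 3 / 5) (hg0 : 0 ≤ g)
    (hg1 : g ≤ 0.265 * th * (3.15 + th)) : cosh g < 1 + 0.417 * th ^ 2 + 0.64 * th ^ 4 := by
  have hy0 : 0 < th ^ 2 := by positivity
  have hy1 : th ^ 2 ≤ 9 / 25 := by nlinarith
  have hp3 : 0 < th ^ 3 := by positivity
  have hp4 : 0 < th ^ 4 := by positivity
  have hgsm : g ≤ 0.6 := by nlinarith
  have hch := cosh_hi hg0 (by linarith)
  have hg2 : g ^ 2 ≤ (0.6968075625 + 0.4424175 * th + 0.070225 * th ^ 2) * th ^ 2 := by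
    refine (pow_le_pow_left₀ hg0 hg1 2).trans (le_of_eq ?_)
    ring
  have hco : 0.6968075625 + 0.4424175 * th + 0.070225 * th ^ 2 ≤ 0.98755 := by linarith
  have hg2' : g ^ 2 ≤ 0.98755 * th ^ 2 :=
    hg2.trans (mul_le_mul_of_nonneg_right hco hy0.le)
  have hg4 : g ^ 4 ≤ 0.97526 * th ^ 4 := by
    have := pow_le_pow_left₀ (sq_nonneg g) hg2' 2
    have e1 : (g ^ 2) ^ 2 = g ^ 4 := by ring
    have e2 : (0.98755 * th ^ 2) ^ 2 = 0.9752550025 * th ^ 4 := by ring
    rw [e1, e2] at this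
    linarith
  have hg6 : g ^ 6 ≤ 0.36 * g ^ 4 := by
    have h2 : g ^ 2 ≤ 0.36 := by nlinarith
    have e1 : g ^ 6 = g ^ 2 * g ^ 4 := by ring
    rw [e1]
    exact mul_le_mul_of_nonneg_right h2 (by positivity)
  have hquad : 0 < 0.068596 - 0.22121 * th + 0.5556 * th ^ 2 := by
    have := sq_nonneg (th - 0.2)
    have e : (th - 0.2) ^ 2 = th ^ 2 - 0.4 * th + 0.04 := by ring
    rw [e] at this
    linarith
  have hq2 : 0 < th ^ 2 * (0.068596 - 0.22121 * th + 0.5556 * th ^ 2) := mul_pos hy0 hquad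
  have e3 : th ^ 2 * (0.068596 - 0.22121 * th + 0.5556 * th ^ 2) =
    0.068596 * th ^ 2 - 0.22121 * th ^ 3 + 0.5556 * th ^ 4 := by ring
  have e4 : (0.6968075625 + 0.4424175 * th + 0.070225 * th ^ 2) * th ^ 2 =
    0.6968075625 * th ^ 2 + 0.4424175 * th ^ 3 + 0.070225 * th ^ 4 := by ring
  rw [e3] at hq2
  rw [e4] at hg2
  linarith

theorem R1_c2 {th g : ℝ} (h0 : 0 < th) (h1 : th ≤ 3 / 5) (hg0 : 0 ≤ g)
    (hg1 : g ≤ th * (0.7493 + 0.5896 * th)) : cosh g < 1 + 0.417 * th ^ 2 + 0.64 * th ^ 4 := by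
  have hy0 : 0 < th ^ 2 := by positivity
  have hy1 : th ^ 2 ≤ 9 / 25 := by nlinarith
  have hp3 : 0 < th ^ 3 := by positivity
  have hp4 : 0 < th ^ 4 := by positivity
  have hgsm : g ≤ 0.67 := by nlinarith
  have hch := cosh_hi hg0 (by linarith)
  have hg2 : g ^ 2 ≤ (0.56145049 + 0.88357456 * th + 0.34762816 * th ^ 2) * th ^ 2 := by
    refine (pow_le_pow_left₀ hg0 hg1 2).trans (le_of_eq ?_)
    ring
  have hco : 0.56145049 + 0.88357456 * th + 0.34762816 * th ^ 2 ≤ 1.21677 := by linarith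
  have hg2' : g ^ 2 ≤ 1.21677 * th ^ 2 :=
    hg2.trans (mul_le_mul_of_nonneg_right hco hy0.le)
  have hg4 : g ^ 4 ≤ 1.48053 * th ^ 4 := by
    have := pow_le_pow_left₀ (sq_nonneg g) hg2' 2
    have e1 : (g ^ 2) ^ 2 = g ^ 4 := by ring
    have e2 : (1.21677 * th ^ 2) ^ 2 = 1.4805292329 * th ^ 4 := by ring
    rw [e1, e2] at this
    linarith
  have hg6 : g ^ 6 ≤ 0.45 * g ^ 4 := by
    have h2 : g ^ 2 ≤ 0.45 := by nlinarith
    have e1 : g ^ 6 = g ^ 2 * g ^ 4 := by ring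
    rw [e1]
    exact mul_le_mul_of_nonneg_right h2 (by positivity)
  have hquad : 0 < 0.13627 - 0.44179 * th + 0.4033 * th ^ 2 := by
    have := sq_nonneg (th - 0.5477)
    have e : (th - 0.5477) ^ 2 = th ^ 2 - 1.0954 * th + 0.29997529 := by ring
    rw [e] at this
    linarith
  have hq2 : 0 < th ^ 2 * (0.13627 - 0.44179 * th + 0.4033 * th ^ 2) := mul_pos hy0 hquad
  have e3 : th ^ 2 * (0.13627 - 0.44179 * th + 0.4033 * th ^ 2) =
    0.13627 * th ^ 2 - 0.44179 * th ^ 3 + 0.4033 * th ^ 4 := by ring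
  have e4 : (0.56145049 + 0.88357456 * th + 0.34762816 * th ^ 2) * th ^ 2 =
    0.56145049 * th ^ 2 + 0.88357456 * th ^ 3 + 0.34762816 * th ^ 4 := by ring
  rw [e3] at hq2
  rw [e4] at hg2
  linarith

/-- ROW R1 (helper26). -/
theorem R1 : Pool.Agent.M4.Cov.R1_stmt := by
  intro lam th hl h0 h1 hsl hG
  have hc0 : 0 < cos th := by
    apply cos_pos_of_mem_Ioo
    constructor <;> linarith [pi_gt_three]
  have hy0 : 0 < th ^ 2 := by positivity
  have hy6 : th ^ 2 ≤ 0.6 * th := by nlinarith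
  rcases le_total lam (0.265 * th ^ 2) with hsm | hbig
  · left
    have hg0 : 0 ≤ lam / th * (π + th) := by
      have := pi_pos
      positivity
    have hmu : lam / th ≤ 0.265 * th := by
      rw [div_le_iff₀ h0]
      nlinarith
    have hpi := pi_lt_d2
    have hpi0 := pi_pos
    have hg1 : lam / th * (π + th) ≤ 0.265 * th * (3.15 + th) := by
      apply mul_le_mul hmu (by linarith) (by positivity) (by positivity)
    exact R1_cmp hl h0 h1 (R1_c1 h0 h1 hg0 hg1)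
  · right
    have ha : cos th ≤ √(Pool.Agent.M4.Cov.rr lam th) := by
      apply le_sqrt_of_sq_le
      unfold Pool.Agent.M4.Cov.rr
      linarith [sq_nonneg (sinh lam)]
    have hU := R1_up hl h0 h1 hsl hbig _ ha
    have hg1 : Pool.Agent.M4.Cov.Gf lam th ≤ th * (0.7493 + 0.5896 * th) := by
      refine hU.trans ?_
      apply mul_le_mul_of_nonneg_left _ h0.le
      linarith
    exact R1_cmp hl h0 h1 (R1_c2 h0 h1 hG hg1)

end Pool.Agent.M4F
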