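import Pool.Agent.helper49.M4.Spec

/-!
# Project M4 (MP_1b8d20_an, S03975), block II: row BRA
-/

set_option autoImplicit false

namespace Pool.Agent.M4F

open Real

/-- `√(cosh² λ - sin² θ) ≤ cosh λ cosh X - sin θ sinh X`. -/
theorem BRA_amp {c s q X : ℝ} (hq : 0 ≤ q) (hqs : q ^ 2 = c ^ 2 - s ^ 2) (hc : 0 < c) (hcs : |s| < c) : q ≤ c * cosh X - s * sinh X := by
  have h1 : cosh X ^ 2 - sinh X ^ 2 = 1 := cosh_sq_sub_sinh_sq X
  have hpos : 0 < c * cosh X - s * sinh X := by
    have h2 : |sinh X| < cosh X := by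
      rw [abs_lt]
      have := exp_pos X
      have := exp_pos (-X)
      constructor
      · have : cosh X + sinh X = exp X := cosh_add_sinh X
        linarith
      · have : cosh X - sinh X = exp (-X) := cosh_sub_sinh X
        linarith
    have h3 : |s * sinh X| < c * cosh X := by
      rw [abs_mul]; exact mul_lt_mul'' hcs h2 (abs_nonneg _) (abs_nonneg _)
    have := (abs_lt.1 h3).2
    linarith
  have h4 : q ^ 2 ≤ (c * cosh X - s * sinh X) ^ 2 := by
    rw [hqs]
    have e : (c * cosh X - s * sinh X) ^ 2 - (c ^ 2 - s ^ 2) = (c * sinh X - s * cosh X) ^ 2 := by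
      linear_combination (c ^ 2 - s ^ 2) * h1
    nlinarith [sq_nonneg (c * sinh X - s * cosh X)]
  exact le_of_sq_le_sq h4 hpos.le

/-- the bracket is at least the minimum of its end values. -/
theorem BRA_conc {A B th p : ℝ} (hA : 0 ≤ A) (hB : 0 ≤ B) (hth : 0 < th) (hth2 : th < π / 2) (hp0 : 0 ≤ p) (hp : p < th) :
    min A (A * cos th + B * sin th) ≤ A * cos p + B * sin p := by
  -- `f p sin θ = f 0 sin (θ - p) + f θ sin p`, and `sin (θ - p) + sin p ≥ sin θ`
  have hst : 0 < sin th := sin_pos_of_pos_of_lt_pi hth (by linarith [pi_pos])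
  have h1 : 0 ≤ sin p := sin_nonneg_of_nonneg_of_le_pi hp0 (by linarith [pi_pos])
  have h2 : 0 ≤ sin (th - p) := sin_nonneg_of_nonneg_of_le_pi (by linarith) (by linarith [pi_pos])
  have hct : 0 < cos th := cos_pos_of_mem_Ioo ⟨by linarith [pi_pos], hth2⟩
  have e : (A * cos p + B * sin p) * sin th = A * sin (th - p) + (A * cos th + B * sin th) * sin p := by
    rw [sin_sub]; ring
  have h3 : sin th ≤ sin (th - p) + sin p := by
    have e1 : sin th = sin (th - p) * cos p + cos (th - p) * sin p := by
      rw [← sin_add]; congr 1; ring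
    have c1 := cos_le_one p
    have c2 := cos_le_one (th - p)
    rw [e1]; nlinarith
  set m := min A (A * cos th + B * sin th) with hm
  have m0 : 0 ≤ m := le_min hA (by positivity)
  have m1 : m ≤ A := min_le_left _ _
  have m2 : m ≤ A * cos th + B * sin th := min_le_right _ _
  have h4 : m * sin th ≤ (A * cos p + B * sin p) * sin th := by
    rw [e]
    have a1 := mul_le_mul_of_nonneg_left h3 m0
    have a2 := mul_le_mul_of_nonneg_right m1 h2
    have a3 := mul_le_mul_of_nonneg_right m2 h1
    linarith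
  exact le_of_mul_le_mul_right h4 hst

/-- ROW BRA. -/
theorem BRA : BRA_stmt := by
  intro lam th a b hl ht0 ht hS hb0 hbt ha him hcr
  have hpi := pi_pos
  have hsl : 0 < sinh lam := sinh_pos_iff.2 hl
  have hcl : 0 < cosh lam := cosh_pos lam
  have hst : 0 < sin th := sin_pos_of_pos_of_lt_pi ht0 (by linarith)
  have hct : 0 < cos th := cos_pos_of_mem_Ioo ⟨by linarith, ht⟩
  refine ⟨by linarith, ?_⟩
  by_contra hcon
  push Not at hcon
  have hbth : th < b := by
    by_contra h
    push Not at h
    linarith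
  -- cos (b - θ) > 0
  have hs1 : 0 < sin (b - th) := sin_pos_of_pos_of_lt_pi (by linarith) (by linarith)
  have hc1 : 0 < cos (b - th) := by
    by_contra h
    push Not at h
    unfold imF at him
    have h1 : sinh (a - lam) < 0 := sinh_neg_iff.2 (by linarith)
    have h2 : 0 < sinh (2 * lam) := sinh_pos_iff.2 (by linarith)
    have h3 : 0 ≤ sinh (2 * lam) * sinh (a - lam) * cos (b - th) :=
      mul_nonneg_of_nonpos_of_nonpos (mul_neg_of_pos_of_neg h2 h1).le h
    have h4 : 0 < sin (2 * th) := sin_pos_of_pos_of_lt_pi (by linarith) (by linarith)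
    have h5 : 0 < sin (2 * th) * cosh (a - lam) * sin (b - th) := by have := cosh_pos (a - lam); positivity
    linarith
  have hb1 : b - th < π / 2 := by
    by_contra h
    push Not at h
    have : cos (b - th) ≤ 0 := cos_nonpos_of_pi_div_two_le_of_le h (by linarith)
    linarith
  -- θ < π / 3
  have hth3 : th < π / 3 := by
    by_contra h
    push Not at h
    linarith
  have hcos : 1 / 2 < cos th := by
    rw [← cos_pi_div_three]
    exact cos_lt_cos_of_nonneg_of_le_pi_div_two ht0.le (by linarith) hth3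
  -- p = ψ - π
  set p := 2 * b - th - π with hp
  have hp0 : 0 ≤ p := by linarith
  have hpt : p < th := by linarith
  have e1 : cos (2 * b - th) = -cos p := by
    have : 2 * b - th = p + π := by rw [hp]; ring
    rw [this, cos_add_pi]
  have e2 : sin (2 * b - th) = -sin p := by
    have : 2 * b - th = p + π := by rw [hp]; ring
    rw [this, sin_add_pi]
  unfold CrI st at hcr
  rw [e1, e2] at hcr
  have hcs : sinh lam ^ 2 = cosh lam ^ 2 - 1 := by linarith [cosh_sq_sub_sinh_sq lam]
  have hsc : sin th ^ 2 = 1 - cos th ^ 2 := by linarith [sin_sq_add_cos_sq th]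
  have hch1 : sin th < cosh lam := by
    have : 1 ≤ cosh lam := one_le_cosh lam
    have h1 : sin th < 1 := by
      have := sin_sq_add_cos_sq th
      nlinarith
    linarith
  set q := sqrt (sinh lam ^ 2 + cos th ^ 2) with hq
  have hq0 : 0 ≤ q := sqrt_nonneg _
  have hq2 : q ^ 2 = sinh lam ^ 2 + cos th ^ 2 := sq_sqrt (by positivity)
  have hamp := BRA_amp (X := lam - 2 * a) hq0 (c := cosh lam) (s := sin th) (by rw [hq2]; linarith) hcl
    (by rw [abs_of_pos hst]; exact hch1)
  have hconc := BRA_conc hct.le hsl.le ht0 ht hp0 hpt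
  have hq1 : q < 1 := by
    have h1 : sinh lam ^ 2 < sin th ^ 2 := pow_lt_pow_left₀ hS hsl.le two_ne_zero
    have h2 : q ^ 2 < 1 ^ 2 := by rw [hq2]; linarith
    exact lt_of_pow_lt_pow_left₀ 2 (by norm_num) h2
  have hqc : cos th ≤ q := by
    have : cos th ^ 2 ≤ q ^ 2 := by rw [hq2]; nlinarith
    exact le_of_sq_le_sq this hq0
  have hcc : cos th * 1 / 2 < cos th ^ 2 := by nlinarith
  rcases min_le_iff.1 hconc with h | h
  · -- (i)
    have h1 : q < sinh lam ^ 2 + sin th ^ 2 - cos th := by linarith
    nlinarith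
  · -- (ii)
    have h1 : q < sinh lam ^ 2 + sin th ^ 2 - (cos th * cos th + sinh lam * sin th) := by linarith
    have h2 : sinh lam ^ 2 ≤ sinh lam * sin th := by nlinarith
    nlinarith

end Pool.Agent.M4F
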