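import Pool.Agent.helper49.M4.Spec

/-!
# Project M4 (MP_1b8d20_an, S03975), block II: rows FRM and STR
-/

set_option autoImplicit false

namespace Pool.Agent.M4F

open Real

/-- case `b' ≥ π`. -/
theorem FRM_one {lam th x c : ℝ} (hl : 0 < lam) (ht0 : 0 < th) (ht : th < π / 2) (hc0 : 0 ≤ c) (hc : c < th)
    (F' : sinh x * cos c * (cosh lam * sin th) ≤ cosh x * sin c * (sinh lam * cos th))
    (F : sinh (lam - x) * cos (th - c) * (cosh lam * sin th) ≤ cosh (lam - x) * sin (th - c) * (sinh lam * cos th)) :
    x = 0 ∧ c = 0 := by
  have hsl : 0 < sinh lam := sinh_pos_iff.2 hl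
  have hcl : 0 < cosh lam := cosh_pos lam
  have hst : 0 < sin th := sin_pos_of_pos_of_lt_pi ht0 (by linarith)
  have hct : 0 < cos th := cos_pos_of_mem_Ioo ⟨by linarith, ht⟩
  have hc1 : 0 < cos c := cos_pos_of_mem_Ioo ⟨by linarith, by linarith⟩
  have hc2 : 0 < cos (th - c) := cos_pos_of_mem_Ioo ⟨by linarith, by linarith⟩
  have hs1 : 0 ≤ sin c := sin_nonneg_of_nonneg_of_le_pi hc0 (by linarith)
  have hs2 : 0 < sin (th - c) := sin_pos_of_pos_of_lt_pi (by linarith) (by linarith)
  have hx1 : 0 < cosh x := cosh_pos x
  have hx2 : 0 < cosh (lam - x) := cosh_pos _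
  have e1 : sinh x * cosh (lam - x) + cosh x * sinh (lam - x) = sinh lam := by
    rw [← sinh_add]; congr 1; ring
  have e2 : cosh x * cosh (lam - x) + sinh x * sinh (lam - x) = cosh lam := by
    rw [← cosh_add]; congr 1; ring
  have e3 : sin c * cos (th - c) + cos c * sin (th - c) = sin th := by
    rw [← sin_add]; congr 1; ring
  have e4 : cos c * cos (th - c) - sin c * sin (th - c) = cos th := by
    rw [← cos_add]; congr 1; ring
  -- the sum
  have g1 := mul_le_mul_of_nonneg_right F' (mul_pos hx2 hc2).le
  have g2 := mul_le_mul_of_nonneg_right F (mul_pos hx1 hc1).le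
  have g3 : sinh lam * sin th * (cos c * cos (th - c) * cosh lam) ≤ sinh lam * sin th * (cosh x * cosh (lam - x) * cos th) := by
    have a1 : sinh lam * sin th * (cos c * cos (th - c) * cosh lam) =
        sinh x * cos c * (cosh lam * sin th) * (cosh (lam - x) * cos (th - c)) +
        sinh (lam - x) * cos (th - c) * (cosh lam * sin th) * (cosh x * cos c) := by
      rw [← e1]; ring
    have a2 : sinh lam * sin th * (cosh x * cosh (lam - x) * cos th) =
        cosh x * sin c * (sinh lam * cos th) * (cosh (lam - x) * cos (th - c)) +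
        cosh (lam - x) * sin (th - c) * (sinh lam * cos th) * (cosh x * cos c) := by
      rw [← e3]; ring
    rw [a1, a2]; linarith
  have g4 := le_of_mul_le_mul_left g3 (mul_pos hsl hst)
  have g5 : cos c * cos (th - c) * (sinh x * sinh (lam - x)) ≤ -(cosh x * cosh (lam - x) * (sin c * sin (th - c))) := by
    rw [← e2, ← e4] at g4; linarith
  have hcc : 0 < cos c * cos (th - c) := mul_pos hc1 hc2
  have hxx : 0 < cosh x * cosh (lam - x) := mul_pos hx1 hx2
  have hss : 0 ≤ sin c * sin (th - c) := mul_nonneg hs1 hs2.le
  rcases lt_or_ge x 0 with hx | hx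
  · exfalso
    have b1 : cosh (lam - x) * sinh lam < sinh (lam - x) * cosh lam := by
      have : 0 < sinh (-x) := sinh_pos_iff.2 (by linarith)
      have e : sinh (-x) = sinh (lam - x) * cosh lam - cosh (lam - x) * sinh lam := by
        rw [← sinh_sub]; congr 1; ring
      linarith
    have b2 : sin (th - c) * cos th ≤ cos (th - c) * sin th := by
      have e : sin c = sin th * cos (th - c) - cos th * sin (th - c) := by
        rw [← sin_sub]; congr 1; ring
      linarith
    have b3 : (cosh (lam - x) * sinh lam) * (sin (th - c) * cos th) < (sinh (lam - x) * cosh lam) * (cos (th - c) * sin th) :=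
      mul_lt_mul b1 b2 (mul_pos hs2 hct) (le_of_lt (lt_of_le_of_lt (mul_pos hx2 hsl).le b1))
    linarith
  · rcases lt_or_ge lam x with hx3 | hx3
    · exfalso
      have b1 : cosh x * sinh lam < sinh x * cosh lam := by
        have : 0 < sinh (x - lam) := sinh_pos_iff.2 (by linarith)
        rw [sinh_sub] at this
        linarith
      have b2 : sin c * cos th < cos c * sin th := by
        have : sin (th - c) = sin th * cos c - cos th * sin c := sin_sub _ _
        linarith
      have b3 : (cosh x * sinh lam) * (sin c * cos th) < (sinh x * cosh lam) * (cos c * sin th) :=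
        mul_lt_mul'' b1 b2 (by positivity) (by positivity)
      linarith
    · have h1 : 0 ≤ sinh x := sinh_nonneg_iff.2 hx
      have h2 : 0 ≤ sinh (lam - x) := sinh_nonneg_iff.2 (by linarith)
      have h3 : 0 ≤ cos c * cos (th - c) * (sinh x * sinh (lam - x)) := by positivity
      have h4 : 0 ≤ cosh x * cosh (lam - x) * (sin c * sin (th - c)) := by positivity
      have h5 : cosh x * cosh (lam - x) * (sin c * sin (th - c)) = 0 := by linarith
      have h6 : sin c = 0 := by
        rcases mul_eq_zero.1 h5 with h | h
        · exact absurd h hxx.ne'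
        · rcases mul_eq_zero.1 h with h | h
          · exact h
          · exact absurd h hs2.ne'
      have hcz : c = 0 := by
        rcases hc0.eq_or_lt with h | h
        · exact h.symm
        · exact absurd h6 (sin_pos_of_pos_of_lt_pi h (by linarith)).ne'
      refine ⟨?_, hcz⟩
      rw [h6] at F'
      have h7 : sinh x ≤ 0 := by
        by_contra hcon
        push Not at hcon
        have : 0 < sinh x * cos c * (cosh lam * sin th) := by positivity
        linarith
      exact le_antisymm (sinh_nonpos_iff.1 h7) hx

/-- ROW FRM. -/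
theorem FRM : FRM_stmt := by
  intro lam th a b hl ht0 ht hb0 hb1 h1 h2 hne
  have hsl : 0 < sinh lam := sinh_pos_iff.2 hl
  have hcl : 0 < cosh lam := cosh_pos lam
  have hst : 0 < sin th := sin_pos_of_pos_of_lt_pi ht0 (by linarith [pi_pos])
  have hct : 0 < cos th := cos_pos_of_mem_Ioo ⟨by linarith [pi_pos], ht⟩
  unfold reF at h1 h2
  -- b' < π
  have hbpi : b + th < π := by
    by_contra hcon
    push Not at hcon
    have e1 : sin b = sin (th - (b + th - π)) := by
      have : th - (b + th - π) = π - b := by ring
      rw [this, sin_pi_sub]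
    have e2 : cos b = -cos (th - (b + th - π)) := by
      have : th - (b + th - π) = π - b := by ring
      rw [this, cos_pi_sub, neg_neg]
    have e3 : sin (b + th) = -sin (b + th - π) := by rw [sin_sub_pi, neg_neg]
    have e4 : cos (b + th) = -cos (b + th - π) := by rw [cos_sub_pi, neg_neg]
    have e5 : sinh a = -sinh (lam - (a + lam)) := by
      have : lam - (a + lam) = -a := by ring
      rw [this, sinh_neg, neg_neg]
    have e6 : cosh a = cosh (lam - (a + lam)) := by
      have : lam - (a + lam) = -a := by ring
      rw [this, cosh_neg]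
    rw [e1, e2, e5, e6] at h1
    rw [e3, e4] at h2
    obtain ⟨k1, k2⟩ := FRM_one (x := a + lam) (c := b + th - π) hl ht0 ht (by linarith) (by linarith)
      (by linarith) (by linarith)
    rcases hne with h | h
    · exact h k1
    · exact h (by linarith)
  have hsb : 0 < sin (b + th) := sin_pos_of_pos_of_lt_pi (by linarith) hbpi
  -- b' > π/2
  have hbpi2 : π / 2 < b + th := by
    by_contra hcon
    push Not at hcon
    have hcb : 0 ≤ cos (b + th) := cos_nonneg_of_neg_pi_div_two_le_of_le (by linarith [pi_pos]) hcon
    have hQ : 0 < cosh (a + lam) * sin (b + th) * (sinh lam * cos th) := by have := cosh_pos (a + lam); positivity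
    have hP : 0 < sinh (a + lam) * cos (b + th) * (cosh lam * sin th) := by linarith
    have hcb' : 0 < cos (b + th) := by
      rcases hcb.eq_or_lt with h | h
      · rw [← h] at hP; simp at hP
      · exact h
    have hsa : 0 < sinh (a + lam) := by
      by_contra hcon2
      push Not at hcon2
      have : sinh (a + lam) * cos (b + th) * (cosh lam * sin th) ≤ 0 :=
        mul_nonpos_of_nonpos_of_nonneg (mul_nonpos_of_nonpos_of_nonneg hcon2 hcb) (by positivity)
      linarith
    have hsb0 : 0 < sin b := sin_pos_of_pos_of_lt_pi hb0 hb1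
    rcases le_or_gt a 0 with ha | ha
    · have b1 : sinh (a + lam) * cosh lam ≤ cosh (a + lam) * sinh lam := by
        have : sinh (a + lam - lam) ≤ 0 := by rw [add_sub_cancel_right]; exact sinh_nonpos_iff.2 ha
        rw [sinh_sub] at this
        linarith
      have b2 : cos (b + th) * sin th < sin (b + th) * cos th := by
        have e : sin b = sin (b + th) * cos th - cos (b + th) * sin th := by
          rw [← sin_sub, add_sub_cancel_right]
        linarith
      have b3 : (sinh (a + lam) * cosh lam) * (cos (b + th) * sin th) < (cosh (a + lam) * sinh lam) * (sin (b + th) * cos th) :=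
        mul_lt_mul' b1 b2 (by positivity) (lt_of_lt_of_le (by positivity) b1)
      linarith
    · have hsa0 : 0 < sinh a := sinh_pos_iff.2 ha
      have hcb0 : 0 < cos b := cos_pos_of_mem_Ioo ⟨by linarith [pi_pos], by linarith⟩
      have hca0 : 0 < cosh a := cosh_pos a
      have g1 := mul_le_mul_of_nonneg_right (sub_nonneg.1 h1) (mul_pos hcl hct).le
      have e1 := sinh_add a lam
      have e2 := cosh_add a lam
      have e3 := sin_add b th
      have e4 := cos_add b th
      -- sinh a' cos b cos θ P ≤ cosh a cosh λ sin b' Q
      have g2 : sinh (a + lam) * (cos b * cos th) * (cosh lam * sin th) ≤ cosh a * cosh lam * sin (b + th) * (sinh lam * cos th) := by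
        rw [e1, e3]; linarith
      have g3 : cosh a * cosh lam < cosh (a + lam) := by rw [e2]; have := mul_pos hsa0 hsl; linarith
      have g4 : cos (b + th) < cos b * cos th := by rw [e4]; have := mul_pos hsb0 hst; linarith
      have g5 : sinh (a + lam) * cos (b + th) * (cosh lam * sin th) < sinh (a + lam) * (cos b * cos th) * (cosh lam * sin th) := by
        apply mul_lt_mul_of_pos_right _ (mul_pos hcl hst)
        exact mul_lt_mul_of_pos_left g4 hsa
      have g6 : cosh a * cosh lam * sin (b + th) * (sinh lam * cos th) < cosh (a + lam) * sin (b + th) * (sinh lam * cos th) := by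
        apply mul_lt_mul_of_pos_right _ (mul_pos hsl hct)
        exact mul_lt_mul_of_pos_right g3 hsb
      linarith
  refine ⟨?_, hbpi2, hbpi⟩
  by_contra hcon
  push Not at hcon
  have hcb : cos (b + th) < 0 := cos_neg_of_pi_div_two_lt_of_lt hbpi2 (by linarith [pi_pos])
  have hsa : 0 ≤ sinh (a + lam) := sinh_nonneg_iff.2 hcon
  have hQ : 0 < cosh (a + lam) * sin (b + th) * (sinh lam * cos th) := by have := cosh_pos (a + lam); positivity
  have : sinh (a + lam) * cos (b + th) * (cosh lam * sin th) ≤ 0 :=
    mul_nonpos_of_nonpos_of_nonneg (mul_nonpos_of_nonneg_of_nonpos hsa hcb.le) (by positivity)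
  linarith

/-- ROW STR. -/
theorem STR : STR_stmt := by
  intro lam th a c h
  have hsl : 0 < sinh lam := sinh_pos_iff.2 h.lam0
  have hca : 0 < cosh a := cosh_pos a
  have hst : 0 < sin th := sin_pos_of_pos_of_lt_pi h.th0 (by linarith [h.th1, pi_pos])
  have hsa : 0 < sinh (lam + a) := sinh_pos_iff.2 (by linarith [h.lam0, h.a0])
  have h1 := h.lens
  have h2 := h.fail
  have e1 := sinh_add lam a
  have e2 := sin_add th c
  have h3 : sinh lam * cosh a * sin (th + c) ≤ cos c * sin th * sinh (lam + a) := by
    rw [e1, e2]; linarith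
  have h4 : sinh lam * cosh a * (sinh lam * sinh (lam + a)) < sinh lam * cosh a * (sin th * sin (th + c)) :=
    mul_lt_mul_of_pos_left h1 (by positivity)
  have h5 : sin th * (sinh lam * cosh a * sin (th + c)) ≤ sin th * (cos c * sin th * sinh (lam + a)) :=
    mul_le_mul_of_nonneg_left h3 hst.le
  have h6 : (sinh lam ^ 2 * cosh a) * sinh (lam + a) < (sin th ^ 2 * cos c) * sinh (lam + a) := by linarith
  exact lt_of_mul_lt_mul_right h6 hsa.le

end Pool.Agent.M4F
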